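import Mathlib
import Pool.Agent.helper67.RG.Spec

/-!
# Row rg:EIG (MP_2e0e07_nt)
-/

set_option autoImplicit false

namespace Pool.Agent.RG.EIG

open Matrix Polynomial

theorem root {F m : Type*} [Field F] [Fintype m] [DecidableEq m] (A : Matrix m m F) (μ : F)
    (k : ℕ) (y : m → F) (hy : y ≠ 0) (h : (A - Matrix.scalar m μ) ^ k *ᵥ y = 0) :
    A.charpoly.IsRoot μ := by
  by_contra hr
  have h1 : (Matrix.scalar m μ - A).det ≠ 0 := by
    intro h0
    apply hr
    rw [IsRoot, Matrix.eval_charpoly]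
    exact h0
  have h2 : IsUnit (Matrix.scalar m μ - A) := (Matrix.isUnit_iff_isUnit_det _).2 h1.isUnit
  have h3 : IsUnit ((A - Matrix.scalar m μ) ^ k) := by
    have e : A - Matrix.scalar m μ = -(Matrix.scalar m μ - A) := by rw [neg_sub]
    rw [e]
    exact h2.neg.pow k
  obtain ⟨u, hu⟩ := h3
  have h4 : (↑u⁻¹ : Matrix m m F) *ᵥ ((A - Matrix.scalar m μ) ^ k *ᵥ y) = y := by
    rw [← hu, Matrix.mulVec_mulVec, Units.inv_mul, Matrix.one_mulVec]
  rw [h, Matrix.mulVec_zero] at h4
  exact hy h4.symm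

theorem EIG : EIG_stmt := by
  intro F m _ _ _ _ A N c hAN hN
  have hcomm : ∀ (γ : F) (k : ℕ), (A - Matrix.scalar m (c * γ)) ^ k * N =
      c ^ k • (N * (A - Matrix.scalar m γ) ^ k) := by
    intro γ k
    induction k with
    | zero => rw [pow_zero, pow_zero, pow_zero, one_mul, mul_one, one_smul]
    | succ k ih =>
      have e1 : (A - Matrix.scalar m (c * γ)) * N = c • (N * (A - Matrix.scalar m γ)) := by
        rw [sub_mul, mul_sub, smul_sub, hAN, Matrix.scalar_apply, Matrix.scalar_apply,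
          ← Matrix.smul_one_eq_diagonal, ← Matrix.smul_one_eq_diagonal, smul_mul_assoc, one_mul,
          mul_smul_comm, mul_one, smul_smul]
      rw [pow_succ, mul_assoc, e1, mul_smul_comm, ← mul_assoc, ih, smul_mul_assoc, smul_smul,
        mul_assoc, ← pow_succ, ← pow_succ']
  obtain ⟨γ, k, x, hx, hNx⟩ : ∃ (γ : F) (k : ℕ) (x : m → F),
      (A - Matrix.scalar m γ) ^ k *ᵥ x = 0 ∧ N *ᵥ x ≠ 0 := by
    by_contra hcon
    push Not at hcon
    apply hN
    have h1 : (⊤ : Submodule F (m → F)) ≤ LinearMap.ker (Matrix.toLin' N) := by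
      rw [← Module.End.iSup_maxGenEigenspace_eq_top (Matrix.toLin' A)]
      refine iSup_le fun γ x hx => ?_
      rw [Module.End.mem_maxGenEigenspace] at hx
      obtain ⟨k, hk⟩ := hx
      rw [LinearMap.mem_ker, Matrix.toLin'_apply]
      apply hcon γ k x
      have e : Matrix.toLin' A - γ • (1 : Module.End F (m → F)) =
          Matrix.toLin' (A - Matrix.scalar m γ) := by
        rw [map_sub, Matrix.scalar_apply, ← Matrix.smul_one_eq_diagonal, map_smul,
          Matrix.toLin'_one]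
        rfl
      rw [e, ← Matrix.toLin'_pow, Matrix.toLin'_apply] at hk
      exact hk
    have h2 : Matrix.toLin' N = 0 := LinearMap.ker_eq_top.1 (top_le_iff.1 h1)
    exact (LinearEquiv.map_eq_zero_iff _).1 h2
  refine ⟨γ, root A γ k x ?_ hx, root A (c * γ) k (N *ᵥ x) hNx ?_⟩
  · rintro rfl
    exact hNx (Matrix.mulVec_zero _)
  · rw [Matrix.mulVec_mulVec, hcomm, Matrix.smul_mulVec, ← Matrix.mulVec_mulVec, hx,
      Matrix.mulVec_zero, smul_zero]

end Pool.Agent.RG.EIG
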